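import Pool.Agent.MP_ed9623_an.H77.SpecW

/-! The Ladyzhenskaya inequality. -/

open MeasureTheory Filter Topology Set
open scoped ContDiff

namespace Pool.Agent.MP_ed9623_an.H77

open H64

namespace Lad

variable {f g : P → ℝ}

/-- Square integral over a horizontal line. -/
noncomputable def aY (f : P → ℝ) (s : ℝ) : ℝ := ∫ y, f (y, s) ^ 2

/-- Square integral over a vertical line. -/
noncomputable def aS (f : P → ℝ) (y : ℝ) : ℝ := ∫ s, f (y, s) ^ 2

theorem iY (hf : M2 f) : Integrable (aY f) ∧ ∫ s, aY f s = nm f ^ 2 :=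
  ⟨hf.int_prod.integral_prod_right, by
    rw [nm_sq]; exact (integral_prod_symm _ hf.int_prod).symm⟩

theorem iS (hf : M2 f) : Integrable (aS f) ∧ ∫ y, aS f y = nm f ^ 2 :=
  ⟨hf.int_prod.integral_prod_left, by
    rw [nm_sq]; exact (integral_prod _ hf.int_prod).symm⟩

theorem leY (hf : M2 f) : ∀ᵐ p : P, ∀ a b, slY a b f p.2 ≤ aY f p.2 := by
  have h : ∀ᵐ s : ℝ, ∀ a b, slY a b f s ≤ aY f s :=
    hf.int_prod.prod_left_ae.mono fun s hs a b =>
      setIntegral_le_integral hs (Eventually.of_forall fun _ => sq_nonneg _)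
  exact (Measure.quasiMeasurePreserving_snd (μ := (volume : Measure ℝ))
    (ν := (volume : Measure ℝ))).ae h

theorem leS (hf : M2 f) : ∀ᵐ p : P, ∀ c d, slS c d f p.1 ≤ aS f p.1 := by
  have h : ∀ᵐ y : ℝ, ∀ c d, slS c d f y ≤ aS f y :=
    hf.int_prod.prod_right_ae.mono fun s hs a b =>
      setIntegral_le_integral hs (Eventually.of_forall fun _ => sq_nonneg _)
  exact (Measure.quasiMeasurePreserving_fst (μ := (volume : Measure ℝ))
    (ν := (volume : Measure ℝ))).ae h

theorem big (p : P) {l : ℝ} (hl : 0 < l) :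
    ∃ n : ℕ, p ∈ Bx (-n) n (-n) n ∧ l ≤ (n : ℝ) - -n := by
  obtain ⟨n, hn⟩ := exists_nat_gt (|p.1| + |p.2| + l)
  have h1 := abs_nonneg p.1
  have h2 := abs_nonneg p.2
  exact ⟨n, ⟨abs_lt.1 (by linarith), abs_lt.1 (by linarith)⟩, by linarith⟩

theorem ptY (sl : SliceS) (hf : M2 f) (hg : M2 g) (h : WD univ (ee 0) f g) :
    ∀ᵐ p : P, ∀ l : ℝ, 0 < l → f p ^ 2 ≤ 2 * (aY f p.2 / l + l * aY g p.2) := by
  have a := ae_all_iff.2 fun n : ℕ => (sl (-n) n (-n) n f g hf hg).1 (h.mono (subset_univ _))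
  filter_upwards [a, leY hf, leY hg] with p a b c l hl
  obtain ⟨n, h1, h2⟩ := big p hl
  have := div_le_div_of_nonneg_right (b (-n) n) hl.le
  have := mul_le_mul_of_nonneg_left (c (-n) n) hl.le
  linarith [a n h1 l hl h2]

theorem ptS (sl : SliceS) (hf : M2 f) (hg : M2 g) (h : WD univ (ee 1) f g) :
    ∀ᵐ p : P, ∀ l : ℝ, 0 < l → f p ^ 2 ≤ 2 * (aS f p.1 / l + l * aS g p.1) := by
  have a := ae_all_iff.2 fun n : ℕ => (sl (-n) n (-n) n f g hf hg).2 (h.mono (subset_univ _))
  filter_upwards [a, leS hf, leS hg] with p a b c l hl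
  obtain ⟨n, h1, h2⟩ := big p hl
  have := div_le_div_of_nonneg_right (b (-n) n) hl.le
  have := mul_le_mul_of_nonneg_left (c (-n) n) hl.le
  linarith [a n h1 l hl h2]

theorem opt {X c A B : ℝ} (hc : 0 ≤ c) (hA : 0 ≤ A) (hB : 0 ≤ B)
    (h : ∀ l : ℝ, 0 < l → X ≤ c * (2 * (A ^ 2 / l + l * B ^ 2))) : X ≤ c * (4 * (A * B)) := by
  have t : Tendsto (fun ε : ℝ => c * (4 * ((A + ε) * (B + ε)))) (𝓝[>] 0)
      (𝓝 (c * (4 * ((A + 0) * (B + 0))))) :=
    (Continuous.tendsto (by fun_prop) 0).mono_left nhdsWithin_le_nhds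
  rw [add_zero, add_zero] at t
  refine ge_of_tendsto t (eventually_nhdsWithin_of_forall fun ε (hε : 0 < ε) => ?_)
  have a0 : 0 < A + ε := by linarith
  have b0 : 0 < B + ε := by linarith
  have l0 : 0 < (A + ε) / (B + ε) := div_pos a0 b0
  refine (h _ l0).trans (mul_le_mul_of_nonneg_left ?_ hc)
  have h1 : A ^ 2 / ((A + ε) / (B + ε)) ≤ (A + ε) ^ 2 / ((A + ε) / (B + ε)) :=
    div_le_div_of_nonneg_right (by nlinarith) l0.le
  have h2 : (A + ε) / (B + ε) * B ^ 2 ≤ (A + ε) / (B + ε) * (B + ε) ^ 2 :=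
    mul_le_mul_of_nonneg_left (by nlinarith) l0.le
  have h3 : (A + ε) ^ 2 / ((A + ε) / (B + ε)) = (A + ε) * (B + ε) := by field_simp
  have h4 : (A + ε) / (B + ε) * (B + ε) ^ 2 = (A + ε) * (B + ε) := by field_simp
  linarith

end Lad

open Lad in
theorem rowLad : OfLad := by
  intro sl f fY g gS hf hfY hg hgS h0 h1
  have key : ∀ l m : ℝ, 0 < l → 0 < m → Integrable (fun p => (f p * g p) ^ 2) ∧
      ∫ p, (f p * g p) ^ 2 ≤
        2 * (nm g ^ 2 / m + m * nm gS ^ 2) * (2 * (nm f ^ 2 / l + l * nm fY ^ 2)) := by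
    intro l m hl hm
    have iF : Integrable fun s => 2 * (aY f s / l + l * aY fY s) :=
      (((iY hf).1.div_const l).add ((iY hfY).1.const_mul l)).const_mul 2
    have iG : Integrable fun y => 2 * (aS g y / m + m * aS gS y) :=
      (((iS hg).1.div_const m).add ((iS hgS).1.const_mul m)).const_mul 2
    have i : Integrable fun p : P => 2 * (aS g p.1 / m + m * aS gS p.1) *
        (2 * (aY f p.2 / l + l * aY fY p.2)) := iG.mul_prod iF
    have b : ∀ᵐ p : P, (f p * g p) ^ 2 ≤ 2 * (aS g p.1 / m + m * aS gS p.1) *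
        (2 * (aY f p.2 / l + l * aY fY p.2)) := by
      filter_upwards [ptY sl hf hfY h0, ptS sl hg hgS h1] with p a b
      rw [mul_comm (f p), mul_pow]
      exact mul_le_mul (b m hm) (a l hl) (sq_nonneg _) ((sq_nonneg _).trans (b m hm))
    refine ⟨i.mono' ((hf.meas.mul hg.meas).pow 2) (b.mono fun p hp => by
      rwa [Real.norm_eq_abs, abs_of_nonneg (sq_nonneg _)]), ?_⟩
    refine (integral_mono_of_nonneg (Eventually.of_forall fun _ => sq_nonneg _) i b).trans_eq ?_
    refine (integral_prod_mul (μ := (volume : Measure ℝ)) (ν := (volume : Measure ℝ))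
      (fun y => 2 * (aS g y / m + m * aS gS y))
      fun s => 2 * (aY f s / l + l * aY fY s)).trans ?_
    rw [integral_const_mul, integral_const_mul,
      integral_add ((iS hg).1.div_const m) ((iS hgS).1.const_mul m),
      integral_add ((iY hf).1.div_const l) ((iY hfY).1.const_mul l), integral_div, integral_div,
      integral_const_mul, integral_const_mul, (iS hg).2, (iS hgS).2, (iY hf).2, (iY hfY).2]
  refine ⟨M2.of_int (hf.meas.mul hg.meas) (key 1 1 one_pos one_pos).1, ?_⟩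
  rw [nm_sq]
  have a0 := nm_nonneg f
  have a1 := nm_nonneg fY
  refine (opt (c := 4 * (nm f * nm fY)) (by positivity) (nm_nonneg g) (nm_nonneg gS)
    fun m hm => ?_).trans_eq (by ring)
  rw [mul_comm]
  exact opt (by positivity) a0 a1 fun l hl => (key l m hl hm).2

end Pool.Agent.MP_ed9623_an.H77
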