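import Pool.Agent.MP_ed9623_an.H77.SpecA

/-! The absorbing ball. -/

open MeasureTheory Filter Topology Set
open scoped ContDiff InnerProductSpace

set_option linter.unusedSectionVars false

namespace Pool.Agent.MP_ed9623_an.H77

namespace Abs

variable {H V : Type} [NormedAddCommGroup H] [InnerProductSpace ℝ H] [CompleteSpace H]
  [NormedAddCommGroup V] [InnerProductSpace ℝ V] [CompleteSpace V]
  {S : St H V} {U : ℝ → V} {I : Set ℝ}

theorem dE (h : Sm S I U) (hI : IsOpen I) {t : ℝ} (ht : t ∈ I) :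
    HasDerivAt (fun t => ‖S.ι (U t)‖ ^ 2) (2 * ⟪S.G (U t), U t⟫_ℝ) t := by
  have h1 : HasDerivAt (fun t => S.ι (U t)) (S.ι (deriv U t)) t :=
    S.ι.hasFDerivAt.comp_hasDerivAt t (h.hasDerivAt hI ht)
  have h2 := h1.norm_sq
  rw [← h.2 t ht, adj_inner, real_inner_comm]
  exact h2

theorem G_inner (hB : ∀ u, ⟪S.B u u, u⟫_ℝ = 0) (u : V) :
    ⟪S.G u, u⟫_ℝ = ⟪S.γ, u⟫_ℝ - ⟪S.A u, u⟫_ℝ := by
  simp only [St.G, inner_sub_left, hB, sub_zero]

theorem G_le (hB : ∀ u, ⟪S.B u u, u⟫_ℝ = 0) (u : V) :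
    2 * ⟪S.G u, u⟫_ℝ ≤ -(S.c * ‖u‖ ^ 2) + ‖S.γ‖ ^ 2 / S.c := by
  rw [G_inner hB]
  have h1 := S.coer u
  have h2 := real_inner_le_norm S.γ u
  have c0 := S.c0
  have h3 : 2 * (‖S.γ‖ * ‖u‖) ≤ S.c * ‖u‖ ^ 2 + ‖S.γ‖ ^ 2 / S.c := by
    rw [← sub_le_iff_le_add', le_div_iff₀ c0]
    nlinarith [sq_nonneg (S.c * ‖u‖ - ‖S.γ‖)]
  linarith

/-- Eventual bound for a scalar differential inequality. -/
theorem ev_le {E E' : ℝ → ℝ} {b g : ℝ} (hb : 0 < b)
    (hd : ∀ t, 0 < t → HasDerivAt E (E' t) t) (hle : ∀ t, 0 < t → E' t ≤ -(b * E t) + g) :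
    ∃ T : ℝ, 1 ≤ T ∧ ∀ t, T ≤ t → E t ≤ g / b + 1 := by
  have hF : ∀ t, 0 < t → HasDerivAt (fun t => Real.exp (b * t) * (E t - g / b))
      (Real.exp (b * t) * b * (E t - g / b) + Real.exp (b * t) * E' t) t := fun t ht => by
    have a1 : HasDerivAt (fun t => Real.exp (b * t)) (Real.exp (b * t) * b) t := by
      simpa using ((hasDerivAt_id t).const_mul b).exp
    exact a1.mul ((hd t ht).sub_const _)
  have anti : AntitoneOn (fun t => Real.exp (b * t) * (E t - g / b)) (Ioi 0) := by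
    refine antitoneOn_of_deriv_nonpos (convex_Ioi 0)
      (fun t ht => (hF t ht).continuousAt.continuousWithinAt) (fun t ht => ?_) fun t ht => ?_
    · rw [interior_Ioi] at ht
      exact (hF t ht).differentiableAt.differentiableWithinAt
    · rw [interior_Ioi] at ht
      rw [(hF t ht).deriv]
      have e := Real.exp_pos (b * t)
      have a2 : b * (E t - g / b) + E' t ≤ 0 := by
        have : b * (g / b) = g := by field_simp
        have := hle t ht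
        nlinarith
      nlinarith
  set a := Real.exp (b * 1) * (E 1 - g / b) with ha
  refine ⟨max 1 (|a| / b), le_max_left _ _, fun t ht => ?_⟩
  have t1 : 1 ≤ t := (le_max_left _ _).trans ht
  have t2 : |a| / b ≤ t := (le_max_right _ _).trans ht
  have k1 : Real.exp (b * t) * (E t - g / b) ≤ a :=
    anti (mem_Ioi.2 one_pos) (mem_Ioi.2 (one_pos.trans_le t1)) t1
  rw [div_le_iff₀ hb] at t2
  have k2 : b * t + 1 ≤ Real.exp (b * t) := Real.add_one_le_exp _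
  have k3 := le_abs_self a
  by_contra hc
  push Not at hc
  have e := Real.exp_pos (b * t)
  nlinarith

theorem ev_E (hB : ∀ u, ⟪S.B u u, u⟫_ℝ = 0) : ∃ R : ℝ, 0 ≤ R ∧ ∀ U : ℝ → V, Sm S (Ioi 0) U →
    ∃ T : ℝ, 1 ≤ T ∧ ∀ t, T ≤ t → ‖S.ι (U t)‖ ^ 2 ≤ R := by
  have c0 := S.c0
  have hb : 0 < S.c / (‖S.ι‖ ^ 2 + 1) := by positivity
  refine ⟨‖S.γ‖ ^ 2 / S.c / (S.c / (‖S.ι‖ ^ 2 + 1)) + 1, by positivity, fun U h => ?_⟩
  refine ev_le (E := fun t => ‖S.ι (U t)‖ ^ 2) hb (fun t ht => dE h isOpen_Ioi ht) fun t _ => ?_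
  have h1 := G_le hB (U t)
  have h2 : ‖S.ι (U t)‖ ^ 2 ≤ (‖S.ι‖ * ‖U t‖) ^ 2 :=
    pow_le_pow_left₀ (norm_nonneg _) (S.ι.le_opNorm _) 2
  have h3 : S.c / (‖S.ι‖ ^ 2 + 1) * ‖S.ι (U t)‖ ^ 2 ≤ S.c * ‖U t‖ ^ 2 := by
    rw [div_mul_eq_mul_div, div_le_iff₀ (by positivity), mul_assoc]
    refine mul_le_mul_of_nonneg_left ?_ c0.le
    nlinarith [sq_nonneg ‖U t‖]
  linarith

theorem int_U (hB : ∀ u, ⟪S.B u u, u⟫_ℝ = 0) (h : Sm S (Ioi 0) U) {s : ℝ} (hs : 0 < s) :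
    S.c * ∫ r in s..s + 1, ‖U r‖ ^ 2 ≤ ‖S.ι (U s)‖ ^ 2 + ‖S.γ‖ ^ 2 / S.c := by
  have sub : uIcc s (s + 1) ⊆ Ioi 0 :=
    (itv_Ioi 0).uIcc hs (show s + 1 ∈ Ioi 0 from by simp only [mem_Ioi]; linarith)
  have cU : ContinuousOn U (uIcc s (s + 1)) := h.1.continuousOn.mono sub
  have cG : ContinuousOn (fun r => S.G (U r)) (uIcc s (s + 1)) := S.cont_G.comp_continuousOn cU
  have i1 : IntervalIntegrable (fun r => 2 * ⟪S.G (U r), U r⟫_ℝ) volume s (s + 1) :=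
    (continuousOn_const.mul (cG.inner (𝕜 := ℝ) cU)).intervalIntegrable
  have i2 : IntervalIntegrable (fun r => ‖U r‖ ^ 2) volume s (s + 1) :=
    (cU.norm.pow 2).intervalIntegrable
  have e := intervalIntegral.integral_eq_sub_of_hasDerivAt
    (fun r hr => dE h isOpen_Ioi (sub hr)) i1
  have m := intervalIntegral.integral_mono_on (by linarith : s ≤ s + 1) i1
    ((i2.const_mul S.c).neg.add (intervalIntegrable_const (c := ‖S.γ‖ ^ 2 / S.c)))
    fun r _ => G_le hB (U r)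
  rw [e] at m
  have e2 : ∫ r in s..s + 1, (-(fun r => S.c * ‖U r‖ ^ 2)) r + ‖S.γ‖ ^ 2 / S.c
      = -(S.c * ∫ r in s..s + 1, ‖U r‖ ^ 2) + ‖S.γ‖ ^ 2 / S.c := by
    rw [intervalIntegral.integral_add (i2.const_mul S.c).neg intervalIntegrable_const]
    simp
  rw [e2] at m
  nlinarith [sq_nonneg ‖S.ι (U (s + 1))‖]

theorem lin_deriv (h : Sm S I U) (hI : Itv I) :
    Lin S.ι I (fun t => S.ι (deriv U t)) (deriv U) fun t => S.G' (U t) (deriv U t) := by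
  have c := h.1.continuousOn
  have c' := h.cont_deriv hI.1
  have cG : ContinuousOn (fun t => S.G' (U t) (deriv U t)) I := by
    unfold St.G'
    refine ContinuousOn.neg (ContinuousOn.add (ContinuousOn.add
      (S.A.continuous.comp_continuousOn c') ?_) ?_)
    · exact (S.B.continuous.comp_continuousOn c').clm_apply c
    · exact (S.B.continuous.comp_continuousOn c).clm_apply c'
  refine ⟨S.ι.continuous.comp_continuousOn c', Loc2.of_cont hI c', Loc2.of_cont hI cG,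
    Eventually.of_forall fun _ _ => rfl, fun s hs t ht => ?_⟩
  rw [h.2 s hs, h.2 t ht]
  refine (intervalIntegral.integral_eq_sub_of_hasDerivAt (f := fun t => S.G (U t))
    (fun r hr => ?_) ((cG.mono (hI.uIcc hs ht)).intervalIntegrable)).symm
  have d := h.hasDerivAt hI.1 (hI.uIcc hs ht hr)
  have d1 : HasDerivAt (fun t => S.A (U t)) (S.A (deriv U r)) r :=
    S.A.hasFDerivAt.comp_hasDerivAt r d
  have d2 : HasDerivAt (fun t => S.B (U t)) (S.B (deriv U r)) r :=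
    S.B.hasFDerivAt.comp_hasDerivAt r d
  have d3 := d2.clm_apply d
  have d4 := (d1.const_sub S.γ).sub d3
  convert d4 using 1
  · rfl
  · simp only [St.G']
    abel

theorem key_ineq (S : St H V) (u z : V) :
    2 * ⟪S.G' u z + S.G u, z⟫_ℝ ≤ -0 * ‖z‖ ^ 2
      + 4 * (S.C ^ 2 / (S.c / 4) ^ 3) * (‖S.ι u‖ * ‖u‖) ^ 2 * ‖S.ι z‖ ^ 2 + ‖S.G u‖ ^ 2 / S.c := by
  have c0 := S.c0
  have h1 := S.coer z
  have h2 := S.young (show 0 < S.c / 4 by positivity) u z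
  have h3 := S.young' (show 0 < S.c / 4 by positivity) u z
  have h4 := (abs_le.1 (abs_real_inner_le_norm (S.B z u) z)).1
  have h5 := (abs_le.1 (abs_real_inner_le_norm (S.B u z) z)).1
  have h6 := real_inner_le_norm (S.G u) z
  have h7 : 2 * (‖S.G u‖ * ‖z‖) ≤ S.c * ‖z‖ ^ 2 + ‖S.G u‖ ^ 2 / S.c := by
    rw [← sub_le_iff_le_add', le_div_iff₀ c0]
    nlinarith [sq_nonneg (S.c * ‖z‖ - ‖S.G u‖)]
  simp only [St.G', inner_add_left, inner_neg_left]
  linarith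

theorem G_sq (S : St H V) {u : V} {R : ℝ} (hR : ‖S.ι u‖ ^ 2 ≤ R) :
    ‖S.G u‖ ^ 2 ≤ 3 * ‖S.γ‖ ^ 2 + 3 * (‖S.A‖ ^ 2 + S.C * R) * ‖u‖ ^ 2 := by
  have h1 : ‖S.G u‖ ≤ ‖S.γ‖ + ‖S.A u‖ + ‖S.B u u‖ :=
    (norm_sub_le _ _).trans (add_le_add (norm_sub_le _ _) le_rfl)
  have h2 : ‖S.A u‖ ^ 2 ≤ (‖S.A‖ * ‖u‖) ^ 2 :=
    pow_le_pow_left₀ (norm_nonneg _) (S.A.le_opNorm _) 2
  have h3 := S.lad u u
  have h4 : S.C * (‖S.ι u‖ ^ 2 * ‖u‖ ^ 2) ≤ S.C * (R * ‖u‖ ^ 2) :=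
    mul_le_mul_of_nonneg_left (mul_le_mul_of_nonneg_right hR (sq_nonneg _)) S.C0
  have h5 := pow_le_pow_left₀ (norm_nonneg _) h1 2
  nlinarith [sq_nonneg (‖S.γ‖ - ‖S.A u‖), sq_nonneg (‖S.γ‖ - ‖S.B u u‖),
    sq_nonneg (‖S.A u‖ - ‖S.B u u‖)]

theorem ev_D (pl : PlS) (wt : WtS) (hB : ∀ u, ⟪S.B u u, u⟫_ℝ = 0) :
    ∃ R : ℝ, 0 ≤ R ∧ ∀ U : ℝ → V, Sm S (Ioi 0) U →
    ∃ T : ℝ, 0 ≤ T ∧ ∀ t, T < t → ‖S.ι (deriv U t)‖ ≤ R := by
  obtain ⟨R0, R00, h0⟩ := ev_E hB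
  have c0 := S.c0
  have C0 := S.C0
  set R1 := (R0 + ‖S.γ‖ ^ 2 / S.c) / S.c with hR1
  set κ := 4 * (S.C ^ 2 / (S.c / 4) ^ 3) with hκ
  have κ0 : 0 ≤ κ := by positivity
  set L := 3 * (‖S.A‖ ^ 2 + S.C * R0) with hL
  have L0 : 0 ≤ L := by positivity
  have R10 : 0 ≤ R1 := by positivity
  obtain ⟨Γ, Γ0, hΓ⟩ := pl (κ * R0 * R1)
  refine ⟨Γ * ((3 * ‖S.γ‖ ^ 2 + L * R1) / S.c) + 1, by positivity, fun U h => ?_⟩
  obtain ⟨T, T1, hT⟩ := h0 U h
  refine ⟨T + 1, by linarith, fun t ht => ?_⟩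
  obtain ⟨s, rfl⟩ : ∃ s, t = s + 1 := ⟨t - 1, by ring⟩
  have sT : T ≤ s := by linarith
  have s0 : 0 < s := by linarith
  have s1 : s + 1 ∈ Ioi (0 : ℝ) := by simp only [mem_Ioi]; linarith
  have ss : s ≤ s + 1 := by linarith
  have sub : uIcc s (s + 1) ⊆ Ioi 0 := (itv_Ioi 0).uIcc s0 s1
  have cU : ContinuousOn U (uIcc s (s + 1)) := h.1.continuousOn.mono sub
  have cG : ContinuousOn (fun r => S.G (U r)) (uIcc s (s + 1)) := S.cont_G.comp_continuousOn cU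
  have cI : ContinuousOn (fun r => S.ι (U r)) (uIcc s (s + 1)) :=
    S.ι.continuous.comp_continuousOn cU
  have i2 : IntervalIntegrable (fun r => ‖U r‖ ^ 2) volume s (s + 1) :=
    (cU.norm.pow 2).intervalIntegrable
  have ik : IntervalIntegrable (fun r => κ * (‖S.ι (U r)‖ * ‖U r‖) ^ 2) volume s (s + 1) :=
    (continuousOn_const.mul ((cI.norm.mul cU.norm).pow 2)).intervalIntegrable
  have im : IntervalIntegrable (fun r => ‖S.G (U r)‖ ^ 2 / S.c) volume s (s + 1) :=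
    ((cG.norm.pow 2).div_const _).intervalIntegrable
  have b1 : ∫ r in s..s + 1, ‖U r‖ ^ 2 ≤ R1 := by
    rw [hR1, le_div_iff₀ c0, mul_comm]
    linarith [int_U hB h s0, hT s sT]
  have bk : ∫ r in s..s + 1, κ * (‖S.ι (U r)‖ * ‖U r‖) ^ 2 ≤ κ * R0 * R1 := by
    refine (intervalIntegral.integral_mono_on ss ik (i2.const_mul (κ * R0))
      fun r hr => ?_).trans ?_
    · rw [mul_pow, mul_assoc κ R0]
      exact mul_le_mul_of_nonneg_left
        (mul_le_mul_of_nonneg_right (hT r (sT.trans hr.1)) (sq_nonneg _)) κ0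
    · rw [intervalIntegral.integral_const_mul]
      exact mul_le_mul_of_nonneg_left b1 (by positivity)
  have bm : ∫ r in s..s + 1, ‖S.G (U r)‖ ^ 2 / S.c ≤ (3 * ‖S.γ‖ ^ 2 + L * R1) / S.c := by
    refine (intervalIntegral.integral_mono_on ss im
      (((intervalIntegrable_const (c := 3 * ‖S.γ‖ ^ 2)).add (i2.const_mul L)).div_const S.c)
      fun r hr => ?_).trans ?_
    · exact div_le_div_of_nonneg_right (G_sq S (hT r (sT.trans hr.1))) c0.le
    · rw [intervalIntegral.integral_div, intervalIntegral.integral_add intervalIntegrable_const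
        (i2.const_mul L), intervalIntegral.integral_const_mul L, intervalIntegral.integral_const]
      refine div_le_div_of_nonneg_right ?_ c0.le
      have := mul_le_mul_of_nonneg_left b1 L0
      simp only [add_sub_cancel_left, smul_eq_mul, one_mul]
      linarith
  have lw := wt (itv_Ioi 0) (lin_deriv h (itv_Ioi 0)) s
  have main := (hΓ (c := 0) (itv_Ioi 0) lw le_rfl s0 s1 ss ik im
    (fun r => by positivity) (fun r => by positivity) bk
    (Eventually.of_forall fun r hr => by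
      have e1 : (r - s) • S.G' (U r) (deriv U r) = S.G' (U r) ((r - s) • deriv U r) := by
        simp only [St.G', map_smul, smul_apply, smul_neg, smul_add]
      rw [e1, h.2 r (s0.trans hr.1), ← map_smul]
      exact key_ineq S _ _)).1 (s + 1) ⟨ss, le_rfl⟩
  simp only [add_sub_cancel_left, one_smul, sub_self, zero_smul, norm_zero] at main
  have m2 := mul_le_mul_of_nonneg_left bm Γ0
  nlinarith [sq_nonneg (‖S.ι (deriv U (s + 1))‖ - 1), norm_nonneg (S.ι (deriv U (s + 1)))]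

end Abs

theorem rowAbs : OfAbs := by
  intro pl wt H V _ _ _ _ _ _ S hB
  obtain ⟨R, R0, hR⟩ := Abs.ev_D pl wt hB
  have c0 := S.c0
  refine ⟨(‖S.γ‖ + R * ‖S.ι‖) / S.c + R, fun U h => ?_⟩
  obtain ⟨T, T0, hT⟩ := hR U h
  refine ⟨T, T0, h.mono (Ioi_subset_Ioi T0), fun t ht => ⟨?_, ?_⟩⟩
  · have h1 := S.coer (U t)
    have h2 := Abs.G_inner hB (U t)
    rw [← h.2 t (T0.trans_lt ht), adj_inner] at h2
    have h3 := real_inner_le_norm S.γ (U t)
    have h4 := (abs_le.1 (abs_real_inner_le_norm (S.ι (deriv U t)) (S.ι (U t)))).1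
    have h5 : ‖S.ι (deriv U t)‖ * ‖S.ι (U t)‖ ≤ R * (‖S.ι‖ * ‖U t‖) :=
      mul_le_mul (hT t ht) (S.ι.le_opNorm _) (norm_nonneg _) R0
    have h6 : ‖U t‖ ≤ (‖S.γ‖ + R * ‖S.ι‖) / S.c := by
      rw [le_div_iff₀ c0]
      rcases (norm_nonneg (U t)).eq_or_lt with e | e
      · rw [← e, zero_mul]
        positivity
      · refine le_of_mul_le_mul_right ?_ e
        nlinarith
    linarith
  · have : 0 ≤ (‖S.γ‖ + R * ‖S.ι‖) / S.c := by positivity
    linarith [hT t ht]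

end Pool.Agent.MP_ed9623_an.H77
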