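import Pool.Agent.MP_ed9623_an.H77.SpecZ

/-! Unique continuation in a connected open set. -/

open MeasureTheory Filter Topology Set
open scoped ContDiff

namespace Pool.Agent.MP_ed9623_an.H77

open H64

namespace Uc

theorem qq_lt {c x : ℝ × ℝ} {r : ℝ} (t : ℝ) (h : dist x c < r) : qq c (t, x) < 2 * r ^ 2 := by
  rw [Prod.dist_eq, max_lt_iff, Real.dist_eq, Real.dist_eq] at h
  have a1 := sq_lt_sq' (abs_lt.1 h.1).1 (abs_lt.1 h.1).2
  have a2 := sq_lt_sq' (abs_lt.1 h.2).1 (abs_lt.1 h.2).2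
  unfold qq XX H64.YY
  simp only
  nlinarith

theorem dist_lt {c : ℝ × ℝ} {z : ST} {r : ℝ} (hr : 0 ≤ r) (h : qq c z < r ^ 2) :
    dist z.2 c < r := by
  unfold qq at h
  have a1 : |XX c z| < r :=
    abs_lt.2 (abs_lt_of_sq_lt_sq' (by nlinarith [mul_self_nonneg (H64.YY c z)]) hr)
  have a2 : |H64.YY c z| < r :=
    abs_lt.2 (abs_lt_of_sq_lt_sq' (by nlinarith [mul_self_nonneg (XX c z)]) hr)
  rw [Prod.dist_eq, Real.dist_eq, Real.dist_eq]
  exact max_lt a1 a2

end Uc

theorem rowUc : OfUc := by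
  intro rc I O w hI hO hOc hw hY hH h0
  set Z : Set P := {x | ∃ ε : ℝ, 0 < ε ∧ ∀ t ∈ I, ∀ j, Van (Metric.ball x ε) (vl (w t) j)} with hZ
  have oZ : IsOpen Z := by
    refine Metric.isOpen_iff.2 fun x ⟨ε, hε, h⟩ => ⟨ε, hε, fun y hy => ?_⟩
    exact ⟨ε - dist y x, sub_pos.2 hy, fun t ht j =>
      (h t ht j).mono (Metric.ball_subset_ball' (by linarith))⟩
  have hsub : O ⊆ Z := by
    refine hOc.subset_of_closure_inter_subset oZ (h0.imp fun x hx => hx) ?_
    rintro x ⟨hxc, hxO⟩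
    obtain ⟨N, M, hN, hxN, hM, hF⟩ := hH x hxO
    obtain ⟨ε, hε, hεN⟩ := Metric.isOpen_iff.1 hN x hxN
    obtain ⟨c, ⟨r, hr, hc⟩, hcx⟩ := Metric.mem_closure_iff.1 hxc (ε / 8) (by positivity)
    have ind : ∀ n : ℕ, ∀ s : ℝ, 0 < s → s ≤ (ε / 2) ^ 2 → s ≤ r ^ 2 * (22 / 21) ^ n →
        ∀ t ∈ I, ∀ j, Van {x | qq c (0, x) < s} (vl (w t) j) := by
      intro n
      induction n with
      | zero =>
        intro s _ _ h t ht j
        exact (hc t ht j).mono fun y hy =>
          Uc.dist_lt (z := (0, y)) hr.le (lt_of_lt_of_le hy (by simpa using h))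
      | succ n ih =>
        intro s hs h1 h2 t ht j
        have := rc c (s / (11 / 10)) M I N w (by positivity) hM hI hN hw hY (fun y hy => ?_) hF
          (ih _ (by positivity) (by linarith) ?_) t ht j
        · rwa [show 11 / 10 * (s / (11 / 10)) = s by ring] at this
        · refine hεN ?_
          have hy' : qq c (0, y) < 3 / 2 * (s / (11 / 10)) := hy
          have : dist y c < 3 / 4 * ε := Uc.dist_lt (z := (0, y)) (by positivity) (by nlinarith)
          rw [Metric.mem_ball]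
          linarith [dist_triangle y c x, dist_comm x c]
        · rw [pow_succ (22 / 21 : ℝ) n] at h2
          linarith
    obtain ⟨n, hn⟩ := pow_unbounded_of_one_lt ((ε / 2) ^ 2 / r ^ 2)
      (by norm_num : (1 : ℝ) < 22 / 21)
    rw [div_lt_iff₀ (by positivity)] at hn
    refine ⟨ε / 8, by positivity, fun t ht j =>
      (ind n _ (by positivity) le_rfl (by linarith) t ht j).mono fun y hy => ?_⟩
    have : dist y c < ε / 4 := by
      rw [Metric.mem_ball] at hy
      linarith [dist_triangle y x c]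
    have := Uc.qq_lt 0 this
    change qq c (0, y) < (ε / 2) ^ 2
    nlinarith
  intro t ht j
  refine Van.of_loc fun x hx => ?_
  obtain ⟨ε, hε, h⟩ := hsub hx
  exact ⟨_, Metric.ball_mem_nhds x hε, h t ht j⟩

end Pool.Agent.MP_ed9623_an.H77
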